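import Mathlib

/-! σ-disjoint open covers of a metric space by small sets (M. E. Rudin, A. H. Stone); lemma B1 of helper54 -/

set_option autoImplicit false

namespace Pool.Agent.L5helper67.BA

universe u

/-- (B1) σ-disjoint open covers of a metric space by small sets -/
theorem exists_sigma_disjoint {X : Type u} [MetricSpace X] (ε : ℝ) (hε : 0 < ε) :
    ∃ V : ℕ → X → Set X, (∀ m y, IsOpen (V m y)) ∧
      (∀ m, Pairwise (Function.onFun Disjoint (V m))) ∧
      (∀ m y, ∀ x ∈ V m y, ∀ x' ∈ V m y, dist x x' ≤ ε) ∧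
      (∀ x, ∃ m y, x ∈ V m y) := by
  classical
  have hwf : WellFounded (WellOrderingRel : X → X → Prop) := IsWellFounded.wf
  have hne : ∀ x : X, {y : X | dist x y < ε / 2}.Nonempty := fun x =>
    ⟨x, by simp only [Set.mem_setOf_eq, dist_self]; linarith⟩
  let p : X → X := fun x => hwf.min {y : X | dist x y < ε / 2} (hne x)
  have hp1 : ∀ x, dist x (p x) < ε / 2 := fun x => hwf.min_mem {y : X | dist x y < ε / 2} (hne x)
  have hp2 : ∀ x y, dist x y < ε / 2 → ¬ WellOrderingRel y (p x) := fun x y h =>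
    hwf.not_lt_min {y : X | dist x y < ε / 2} h
  let δ : ℕ → ℝ := fun m => (1 / 2 : ℝ) ^ m
  have hδ : ∀ m, 0 < δ m := fun m => by positivity
  let V : ℕ → X → Set X := fun m y =>
    ⋃ x : {x : X // p x = y ∧ Metric.ball x (3 * δ m) ⊆ Metric.ball y (ε / 2)}, Metric.ball (x : X) (δ m)
  have hV : ∀ m y z, z ∈ V m y ↔ ∃ x, p x = y ∧ Metric.ball x (3 * δ m) ⊆ Metric.ball y (ε / 2) ∧
      dist z x < δ m := by
    intro m y z
    simp only [V, Set.mem_iUnion, Metric.mem_ball]
    constructor
    · rintro ⟨⟨x, h1, h2⟩, h3⟩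
      exact ⟨x, h1, h2, h3⟩
    · rintro ⟨x, h1, h2, h3⟩
      exact ⟨⟨x, h1, h2⟩, h3⟩
  -- disjointness for `y < y'`
  have key : ∀ m y y', WellOrderingRel y y' → ∀ z, z ∈ V m y → z ∈ V m y' → False := by
    intro m y y' hyy z hz hz'
    obtain ⟨x, h1, h2, h3⟩ := (hV m y z).1 hz
    obtain ⟨x', h1', h2', h3'⟩ := (hV m y' z).1 hz'
    have h4 : dist x' x < 3 * δ m := by
      have := dist_triangle x' z x
      have h5 : dist x' z = dist z x' := dist_comm _ _
      have := hδ m
      linarith
    have h5 : dist x' y < ε / 2 := h2 h4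
    have h6 := hp2 x' y h5
    rw [h1'] at h6
    exact h6 hyy
  refine ⟨V, ?_, ?_, ?_, ?_⟩
  · intro m y
    exact isOpen_iUnion fun x => Metric.isOpen_ball
  · intro m y y' hyy
    rw [Function.onFun, Set.disjoint_left]
    intro z hz hz'
    rcases trichotomous_of WellOrderingRel y y' with h | h | h
    · exact key m y y' h z hz hz'
    · exact hyy h
    · exact key m y' y h z hz' hz
  · intro m y x hx x' hx'
    obtain ⟨w, h1, h2, h3⟩ := (hV m y x).1 hx
    obtain ⟨w', h1', h2', h3'⟩ := (hV m y x').1 hx'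
    have hd := hδ m
    have h4 : dist x y < ε / 2 := h2 (show dist x w < 3 * δ m by linarith)
    have h5 : dist x' y < ε / 2 := h2' (show dist x' w' < 3 * δ m by linarith)
    have h6 := dist_triangle x y x'
    have h7 : dist y x' = dist x' y := dist_comm _ _
    linarith
  · intro x
    have h1 := hp1 x
    obtain ⟨m, hm⟩ := exists_pow_lt_of_lt_one (show (0 : ℝ) < (ε / 2 - dist x (p x)) / 3 by linarith)
      (show (1 / 2 : ℝ) < 1 by norm_num)
    refine ⟨m, p x, (hV m (p x) x).2 ⟨x, rfl, ?_, ?_⟩⟩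
    · intro z hz
      have h2 : dist z x < 3 * δ m := hz
      have h3 : 3 * δ m < ε / 2 - dist x (p x) := by
        have : δ m < (ε / 2 - dist x (p x)) / 3 := hm
        linarith
      have h4 := dist_triangle z x (p x)
      show dist z (p x) < ε / 2
      linarith
    · rw [dist_self]; exact hδ m

end Pool.Agent.L5helper67.BA
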